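import Pool.Agent.W751.CV.Stm

/-!
# Expected area of the set of small values
-/

set_option autoImplicit false

open Polynomial Filter Topology MeasureTheory

namespace Pool.Agent.W515.CV.Area

open Pool.Agent.W751.CD Pool.Agent.W751.CV

theorem eval_P {N : ℕ} (z : Fin N → ℂ) (w : ℂ) : (P z).eval w = ∏ i, (w - z i) := by
  unfold P
  rw [eval_prod]
  exact Finset.prod_congr rfl fun i _ => by rw [eval_sub, eval_X, eval_C]

/-- The truncated inverse square. -/
noncomputable def G {N : ℕ} (M : ℝ) (z : Fin N → ℂ) (w : ℂ) : ENNReal :=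
  {z : Fin N → ℂ | ∀ i, 1 / M ≤ ‖w - z i‖}.indicator
    (fun z => ENNReal.ofReal ((‖(P z).eval w‖ ^ 2)⁻¹)) z

theorem far_meas {N : ℕ} (M : ℝ) :
    MeasurableSet {q : (Fin N → ℂ) × ℂ | ∀ i, 1 / M ≤ ‖q.2 - q.1 i‖} := by
  have h : {q : (Fin N → ℂ) × ℂ | ∀ i, 1 / M ≤ ‖q.2 - q.1 i‖} =
      ⋂ i, {q : (Fin N → ℂ) × ℂ | 1 / M ≤ ‖q.2 - q.1 i‖} := by
    ext q
    simp
  rw [h]
  refine MeasurableSet.iInter fun i => ?_
  refine measurableSet_le measurable_const ?_
  exact (measurable_snd.sub ((measurable_pi_apply i).comp measurable_fst)).norm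

theorem eval_meas {N : ℕ} :
    Measurable (fun q : (Fin N → ℂ) × ℂ => ENNReal.ofReal ((‖(P q.1).eval q.2‖ ^ 2)⁻¹)) := by
  have h : (fun q : (Fin N → ℂ) × ℂ => (P q.1).eval q.2) =
      fun q => ∏ i, (q.2 - q.1 i) := funext fun q => eval_P q.1 q.2
  have h1 : Measurable (fun q : (Fin N → ℂ) × ℂ => (P q.1).eval q.2) := by
    rw [h]
    exact Finset.measurable_prod _ fun i _ =>
      measurable_snd.sub ((measurable_pi_apply i).comp measurable_fst)
  exact ((h1.norm.pow_const 2).inv).ennreal_ofReal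

theorem G_meas {N : ℕ} (M : ℝ) : Measurable (Function.uncurry (G (N := N) M)) := by
  have h : Function.uncurry (G (N := N) M) =
      {q : (Fin N → ℂ) × ℂ | ∀ i, 1 / M ≤ ‖q.2 - q.1 i‖}.indicator
        (fun q => ENNReal.ofReal ((‖(P q.1).eval q.2‖ ^ 2)⁻¹)) := by
    funext q
    obtain ⟨z, w⟩ := q
    rfl
  rw [h]
  exact eval_meas.indicator (far_meas M)

theorem pi_sq {t : ℝ} (ht : 0 ≤ t) :
    ENNReal.ofReal t ^ 2 * (NNReal.pi : ENNReal) = ENNReal.ofReal (Real.pi * t ^ 2) := by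
  rw [← ENNReal.ofReal_pow ht, ← ENNReal.ofReal_coe_nnreal, NNReal.coe_real_pi,
    ← ENNReal.ofReal_mul (by positivity), mul_comm]

theorem pointwise {N : ℕ} (r R M : ℝ) (hR : 0 ≤ R) (hM : 0 < M) (z : Fin N → ℂ) :
    volume {w : ℂ | ‖w‖ ≤ r ∧ ‖(P z).eval w‖ ≤ R} ≤
      ENNReal.ofReal (R ^ 2) * (∫⁻ w in Metric.closedBall (0 : ℂ) r, G M z w) +
        N * ENNReal.ofReal (Real.pi / M ^ 2) := by
  set S1 : Set ℂ := {w : ℂ | ‖w‖ ≤ r ∧ ‖(P z).eval w‖ ≤ R ∧ ∀ i, 1 / M ≤ ‖w - z i‖} with hS1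
  have hsub : {w : ℂ | ‖w‖ ≤ r ∧ ‖(P z).eval w‖ ≤ R} ⊆ S1 ∪ ⋃ i, Metric.ball (z i) (1 / M) := by
    intro w hw
    by_cases h : ∀ i, 1 / M ≤ ‖w - z i‖
    · exact Or.inl ⟨hw.1, hw.2, h⟩
    · push Not at h
      obtain ⟨i, hi⟩ := h
      refine Or.inr (Set.mem_iUnion.2 ⟨i, ?_⟩)
      rw [Metric.mem_ball, dist_eq_norm]
      exact hi
  refine (measure_mono hsub).trans ((measure_union_le _ _).trans (add_le_add ?_ ?_))
  · have hc : Continuous (fun w : ℂ => (P z).eval w) := (P z).continuous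
    have hm : MeasurableSet S1 := by
      have h1 : S1 = Metric.closedBall 0 r ∩ ({w : ℂ | ‖(P z).eval w‖ ≤ R} ∩
          ⋂ i, {w : ℂ | 1 / M ≤ ‖w - z i‖}) := by
        ext w
        simp [hS1]
      rw [h1]
      refine Metric.isClosed_closedBall.measurableSet.inter (MeasurableSet.inter ?_ ?_)
      · exact (isClosed_le hc.norm continuous_const).measurableSet
      · exact MeasurableSet.iInter fun i =>
          (isClosed_le continuous_const (continuous_id.sub continuous_const).norm).measurableSet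
    calc volume S1 = ∫⁻ w in S1, 1 := (setLIntegral_one S1).symm
      _ ≤ ∫⁻ w in S1, ENNReal.ofReal (R ^ 2) * G M z w := by
          refine setLIntegral_mono' hm fun w hw => ?_
          have h1 : G M z w = ENNReal.ofReal ((‖(P z).eval w‖ ^ 2)⁻¹) := by
            unfold G
            rw [Set.indicator_of_mem]
            exact hw.2.2
          rw [h1, ← ENNReal.ofReal_mul (by positivity), ← ENNReal.ofReal_one]
          refine ENNReal.ofReal_le_ofReal ?_
          have h2 : 0 < ‖(P z).eval w‖ := by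
            rw [norm_pos_iff, eval_P, Finset.prod_ne_zero_iff]
            intro i _ h0
            have h3 := hw.2.2 i
            rw [h0, norm_zero] at h3
            have : 0 < 1 / M := by positivity
            linarith
          have h3 : ‖(P z).eval w‖ ^ 2 ≤ R ^ 2 := pow_le_pow_left₀ h2.le hw.2.1 2
          rw [← div_eq_mul_inv, le_div_iff₀ (by positivity)]
          linarith
      _ ≤ ∫⁻ w in Metric.closedBall (0 : ℂ) r, ENNReal.ofReal (R ^ 2) * G M z w := by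
          refine lintegral_mono_set fun w hw => ?_
          rw [Metric.mem_closedBall, dist_zero_right]
          exact hw.1
      _ = ENNReal.ofReal (R ^ 2) * ∫⁻ w in Metric.closedBall (0 : ℂ) r, G M z w := by
          refine lintegral_const_mul' _ _ ENNReal.ofReal_ne_top
  · refine (measure_iUnion_fintype_le _ _).trans ?_
    have h1 : ∀ i, volume (Metric.ball (z i) (1 / M)) = ENNReal.ofReal (Real.pi / M ^ 2) := by
      intro i
      rw [Complex.volume_ball, pi_sq (by positivity)]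
      rw [show (1 / M) ^ 2 = 1 / M ^ 2 by rw [div_pow, one_pow]]
      congr 1
      ring
    rw [Finset.sum_congr rfl fun i _ => h1 i]
    simp

theorem mu_sfinite (ρ : ℝ) (N : ℕ) : SFinite (mu ρ N) := by
  unfold mu mD
  infer_instance

theorem tonelli (r ρ M B : ℝ) (N : ℕ)
    (h : ∀ w : ℂ, ‖w‖ ≤ r → ∫⁻ z in {z : Fin N → ℂ | ∀ i, 1 / M ≤ ‖w - z i‖},
      ENNReal.ofReal ((‖(P z).eval w‖ ^ 2)⁻¹) ∂(mu ρ N) ≤ ENNReal.ofReal B) :
    ∫⁻ z, (∫⁻ w in Metric.closedBall (0 : ℂ) r, G M z w) ∂(mu ρ N) ≤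
      ENNReal.ofReal B * volume (Metric.closedBall (0 : ℂ) r) := by
  haveI := mu_sfinite ρ N
  rw [lintegral_lintegral_swap (G_meas M).aemeasurable]
  calc ∫⁻ w in Metric.closedBall (0 : ℂ) r, (∫⁻ z, G M z w ∂(mu ρ N))
      ≤ ∫⁻ w in Metric.closedBall (0 : ℂ) r, ENNReal.ofReal B := by
        refine setLIntegral_mono' Metric.isClosed_closedBall.measurableSet fun w hw => ?_
        rw [Metric.mem_closedBall, dist_zero_right] at hw
        refine le_trans (le_of_eq ?_) (h w hw)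
        unfold G
        refine lintegral_indicator ?_ _
        have h1 : {z : Fin N → ℂ | ∀ i, 1 / M ≤ ‖w - z i‖} =
            (fun z : Fin N → ℂ => (z, w)) ⁻¹' {q : (Fin N → ℂ) × ℂ | ∀ i, 1 / M ≤ ‖q.2 - q.1 i‖} :=
          rfl
        rw [h1]
        exact (measurable_id.prodMk measurable_const) (far_meas M)
    _ = ENNReal.ofReal B * volume (Metric.closedBall (0 : ℂ) r) := by
        rw [setLIntegral_const]

theorem area : Pool.Agent.W751.CV.S_AREA := by
  intro hZ hN ρ hρ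
  have hρ0 : 0 < ρ := by linarith
  have hl1 : 0 < Real.log (2 * ρ + 1) := Real.log_pos (by linarith)
  have hl2 : 0 < Real.log ρ := Real.log_pos hρ
  refine ⟨2 * Real.pi * (ρ + 1) ^ 2 * (Real.log (2 * ρ + 1) + Real.log ρ) + Real.pi, by positivity,
    fun N hN2 R hR => ?_⟩
  have hN1 : 1 ≤ N := by omega
  have hN1' : (1 : ℝ) ≤ N := by exact_mod_cast hN1
  have hM : 1 ≤ ρ ^ N := one_le_pow₀ hρ.le
  have hM0 : 0 < ρ ^ N := by positivity
  have hZN : 0 ≤ ZN ρ N := by
    unfold ZN hk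
    positivity
  set B : ℝ := 2 * Real.log ((2 * ρ + 1) * ρ ^ N) * N / ρ ^ (2 * N) * ZN ρ N with hB
  have hlog : Real.log ((2 * ρ + 1) * ρ ^ N) = Real.log (2 * ρ + 1) + N * Real.log ρ := by
    rw [Real.log_mul (by positivity) (by positivity), Real.log_pow]
  have hB0 : 0 ≤ B := by
    rw [hB, hlog]
    positivity
  have h1 := tonelli (ρ + 1) ρ (ρ ^ N) B N fun w hw => hN ρ (ρ ^ N) N w hρ0 hN1 hM hw
  have h2 : ∫⁻ z, volume {w : ℂ | ‖w‖ ≤ ρ + 1 ∧ ‖(P z).eval w‖ ≤ R} ∂(mu ρ N) ≤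
      ENNReal.ofReal (R ^ 2) * (ENNReal.ofReal B * volume (Metric.closedBall (0 : ℂ) (ρ + 1))) +
        N * ENNReal.ofReal (Real.pi / (ρ ^ N) ^ 2) * ENNReal.ofReal (ZN ρ N) := by
    refine (lintegral_mono fun z => pointwise (ρ + 1) R (ρ ^ N) (by linarith) hM0 z).trans ?_
    rw [lintegral_add_right _ measurable_const, lintegral_const_mul' _ _ ENNReal.ofReal_ne_top,
      lintegral_const, (hZ ρ N hρ0).1]
    exact add_le_add_left (mul_le_mul_right h1 _) _
  refine h2.trans ?_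
  have h3 : volume (Metric.closedBall (0 : ℂ) (ρ + 1)) = ENNReal.ofReal (Real.pi * (ρ + 1) ^ 2) := by
    rw [Complex.volume_closedBall, pi_sq (by positivity)]
  rw [h3, ← ENNReal.ofReal_mul hB0, ← ENNReal.ofReal_mul (by positivity),
    ← ENNReal.ofReal_natCast, ← ENNReal.ofReal_mul (by positivity),
    ← ENNReal.ofReal_mul (by positivity), ← ENNReal.ofReal_add (by positivity) (by positivity)]
  refine ENNReal.ofReal_le_ofReal ?_
  have h4 : (ρ ^ N) ^ 2 = ρ ^ (2 * N) := by rw [← pow_mul, mul_comm]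
  rw [h4, hB, hlog]
  have h5 : Real.log (2 * ρ + 1) + N * Real.log ρ ≤ N * (Real.log (2 * ρ + 1) + Real.log ρ) := by
    nlinarith
  set L := Real.log (2 * ρ + 1) + Real.log ρ with hL
  set Y := ZN ρ N / ρ ^ (2 * N) with hY
  have hY0 : 0 ≤ Y := by positivity
  have e1 : R ^ 2 * (2 * (Real.log (2 * ρ + 1) + N * Real.log ρ) * N / ρ ^ (2 * N) * ZN ρ N *
      (Real.pi * (ρ + 1) ^ 2)) = (Real.log (2 * ρ + 1) + N * Real.log ρ) *
        (2 * Real.pi * (ρ + 1) ^ 2 * R ^ 2 * N * Y) := by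
    rw [hY]; ring
  have e2 : (N : ℝ) * (Real.pi / ρ ^ (2 * N)) * ZN ρ N = Real.pi * N * Y := by
    rw [hY]; ring
  have e3 : (2 * Real.pi * (ρ + 1) ^ 2 * L + Real.pi) * R ^ 2 * N ^ 2 / ρ ^ (2 * N) * ZN ρ N =
      (N * L) * (2 * Real.pi * (ρ + 1) ^ 2 * R ^ 2 * N * Y) + Real.pi * Y * (R ^ 2 * N ^ 2) := by
    rw [hY]; ring
  rw [e1, e2, e3]
  refine add_le_add (mul_le_mul_of_nonneg_right h5 (by positivity)) ?_
  have h6 : (N : ℝ) ≤ R ^ 2 * N ^ 2 := by
    have h7 : 1 ≤ R ^ 2 := one_le_pow₀ hR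
    nlinarith
  have h8 : 0 ≤ Real.pi * Y := by positivity
  nlinarith

end Pool.Agent.W515.CV.Area
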